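import Mathlib

/-!
# ST: the one dimensional control lemma

Masses `a k ∈ [0, 1]` on a row, noise `b k` and dipoles `g k` of size at most `B * a k`. One can
choose bounded charges `τ k` with total charge zero such that all partial sums of
`b k + τ k * g k - (charge up to k)` are bounded by a constant which depends only on `B`.
-/

set_option autoImplicit false

open Finset

namespace Pool.Agent.ST

/-- the profile of the charge -/
private noncomputable def phi (S x : ℝ) : ℝ := min 1 x + min 1 (S - x) - 1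

private theorem phi_zero {S : ℝ} (hS : 1 ≤ S) : phi S 0 = 0 := by
  unfold phi
  rw [sub_zero, min_eq_left hS, min_eq_right zero_le_one]
  ring

private theorem phi_self {S : ℝ} (hS : 1 ≤ S) : phi S S = 0 := by
  unfold phi
  rw [sub_self, min_eq_left hS, min_eq_right zero_le_one]
  ring

private theorem phi_mem {S x : ℝ} (hS : 2 ≤ S) (h0 : 0 ≤ x) (h1 : x ≤ S) :
    0 ≤ phi S x ∧ phi S x ≤ 1 := by
  unfold phi
  constructor
  · rcases le_total 1 x with h | h
    · rw [min_eq_left h]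
      have : 0 ≤ min 1 (S - x) := le_min zero_le_one (by linarith)
      linarith
    · rw [min_eq_right h, min_eq_left (by linarith)]
      linarith
  · have := min_le_left (1 : ℝ) x
    have := min_le_left (1 : ℝ) (S - x)
    linarith

private theorem phi_diff {S x y : ℝ} (hxy : x ≤ y) :
    |phi S y - phi S x| ≤ (min 1 y - min 1 x) + (min 1 (S - x) - min 1 (S - y)) ∧
      |phi S y - phi S x| ≤ y - x := by
  have h1 : 0 ≤ min 1 y - min 1 x := by
    have := min_le_min_left (1 : ℝ) hxy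
    linarith
  have h2 : 0 ≤ min 1 (S - x) - min 1 (S - y) := by
    have := min_le_min_left (1 : ℝ) (show S - y ≤ S - x by linarith)
    linarith
  have h3 : min 1 y - min 1 x ≤ y - x := by
    rcases le_total 1 x with h | h
    · rw [min_eq_left h, min_eq_left (h.trans hxy)]; linarith
    · rw [min_eq_right h]
      have := min_le_right (1 : ℝ) y
      linarith
  have h4 : min 1 (S - x) - min 1 (S - y) ≤ y - x := by
    rcases le_total 1 (S - y) with h | h
    · rw [min_eq_left h, min_eq_left (by linarith)]; linarith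
    · rw [min_eq_right h]
      have := min_le_right (1 : ℝ) (S - x)
      linarith
  unfold phi
  constructor
  · rw [abs_le]
    constructor <;> linarith
  · rw [abs_le]
    constructor <;> linarith

private theorem phi_low {S x y : ℝ} (hx : 0 ≤ x) (hxy : x ≤ y) (hy : y ≤ S) (h1 : y ≤ x + 1)
    (hS : 2 ≤ S) :
    y - x ≤ phi S y + (max 0 (y - (S - 2)) - max 0 (x - (S - 2))) := by
  have hmono : max 0 (x - (S - 2)) ≤ max 0 (y - (S - 2)) :=
    max_le_max_left _ (by linarith)
  rcases le_total y (S - 1) with h | h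
  · unfold phi
    rw [min_eq_left (show 1 ≤ S - y by linarith)]
    rcases le_total 1 y with h' | h'
    · rw [min_eq_left h']; linarith
    · rw [min_eq_right h']; linarith
  · have h2 : 0 ≤ phi S y := (phi_mem hS (hx.trans hxy) hy).1
    rw [max_eq_right (show 0 ≤ y - (S - 2) by linarith),
      max_eq_right (show 0 ≤ x - (S - 2) by linarith)]
    linarith

/-- one group -/
private theorem ctrl_group {B : ℝ} (hB : 0 ≤ B) {p : ℕ} {a : ℕ → ℝ} {b g : ℕ → ℂ}
    (ha0 : ∀ k, 0 ≤ a k) (ha1 : ∀ k, a k ≤ 1) (hb : ∀ k, ‖b k‖ ≤ B * a k)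
    (hg : ∀ k, ‖g k‖ ≤ B * a k) (hp : 2 * B + 6 ≤ ∑ i ∈ range p, a i)
    (hp' : ∑ i ∈ range p, a i ≤ 2 * B + 7) :
    ∃ τ : ℕ → ℂ, (∀ k, ‖τ k‖ ≤ B * (2 * B + 7) * (B + 2)) ∧ ∑ k ∈ range p, τ k * a k = 0 ∧
      (∀ m ≤ p, ‖∑ k ∈ range m, τ k * a k‖ ≤ B * (2 * B + 7) * (B + 2)) ∧
      (∑ k ∈ range p, (b k + τ k * g k - ∑ i ∈ range (k + 1), τ i * a i) = 0) ∧
      ∀ m ≤ p, ‖∑ k ∈ range m, (b k + τ k * g k - ∑ i ∈ range (k + 1), τ i * a i)‖
        ≤ B * (2 * B + 7) * (B + 2) := by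
  set c : ℕ → ℝ := fun k => ∑ i ∈ range k, a i with hc
  set S : ℝ := c p with hSdef
  have hS : 2 ≤ S := by have : (2 * B + 6 : ℝ) ≤ S := hp; linarith
  have hcs : ∀ k, c (k + 1) = c k + a k := fun k => sum_range_succ _ _
  have hcm : Monotone c := monotone_nat_of_le_succ fun k => by
    rw [hcs]; linarith [ha0 k]
  have hc0 : ∀ k, 0 ≤ c k := fun k => sum_nonneg fun i _ => ha0 i
  set w : ℕ → ℝ := fun k => (phi S (c (k + 1)) - phi S (c k)) / a k with hw
  have hwa : ∀ k, w k * a k = phi S (c (k + 1)) - phi S (c k) := by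
    intro k
    rcases eq_or_ne (a k) 0 with h | h
    · have : c (k + 1) = c k := by rw [hcs, h, add_zero]
      rw [this, h]; ring
    · simp only [hw]
      field_simp
  have hw1 : ∀ k, |w k| ≤ 1 := by
    intro k
    have h1 := (phi_diff (S := S) (hcm (Nat.le_succ k))).2
    simp only [hw]
    rw [abs_div, abs_of_nonneg (ha0 k)]
    refine div_le_one_of_le₀ ?_ (ha0 k)
    refine h1.trans ?_
    have := hcs k
    simp only [Nat.succ_eq_add_one] at *
    linarith
  have hsum : ∀ k, ∑ i ∈ range k, w i * a i = phi S (c k) := by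
    intro k
    rw [sum_congr rfl fun i _ => hwa i, sum_range_sub (fun i => phi S (c i))]
    have : c 0 = 0 := by simp [hc]
    rw [this, phi_zero (by linarith), sub_zero]
  -- total variation
  have htv : ∑ k ∈ range p, |w k| * a k ≤ 2 := by
    have h1 : ∀ k, |w k| * a k ≤ (min 1 (c (k + 1)) - min 1 (c k)) +
        (min 1 (S - c k) - min 1 (S - c (k + 1))) := by
      intro k
      have h2 := (phi_diff (S := S) (hcm (Nat.le_succ k))).1
      have h3 : |w k| * a k = |phi S (c (k + 1)) - phi S (c k)| := by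
        rw [← hwa k, abs_mul, abs_of_nonneg (ha0 k)]
      rw [h3]
      exact h2
    calc ∑ k ∈ range p, |w k| * a k ≤ ∑ k ∈ range p, ((min 1 (c (k + 1)) - min 1 (c k)) +
        (min 1 (S - c k) - min 1 (S - c (k + 1)))) := sum_le_sum fun k _ => h1 k
      _ = (min 1 (c p) - min 1 (c 0)) + (min 1 (S - c 0) - min 1 (S - c p)) := by
          rw [sum_add_distrib, sum_range_sub (fun k => min 1 (c k)),
            sum_range_sub' (fun k => min 1 (S - c k))]
      _ ≤ 2 := by
          have e0 : c 0 = 0 := by simp [hc]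
          have e1 : min 1 (c p) ≤ 1 := min_le_left _ _
          have e2 : min 1 (S - c 0) ≤ 1 := min_le_left _ _
          have e3 : min 1 (c 0) = 0 := by rw [e0]; simp
          have e4 : min 1 (S - c p) = 0 := by rw [← hSdef, sub_self]; simp
          linarith
  -- the profile sum
  set σ : ℕ → ℝ := fun k => phi S (c (k + 1)) with hσ
  have hσ0 : ∀ k, k < p → 0 ≤ σ k := fun k hk => (phi_mem hS (hc0 _) (hcm hk)).1
  have hσ1 : S - 2 ≤ ∑ k ∈ range p, σ k := by
    have h1 : ∑ k ∈ range p, a k ≤ ∑ k ∈ range p, (σ k +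
        (max 0 (c (k + 1) - (S - 2)) - max 0 (c k - (S - 2)))) := by
      refine sum_le_sum fun k hk => ?_
      have hk' := mem_range.1 hk
      have h2 := phi_low (S := S) (hc0 k) (hcm (Nat.le_succ k)) (hcm hk')
        (by simp only [Nat.succ_eq_add_one]; rw [hcs]; linarith [ha1 k]) hS
      have h3 := hcs k
      simp only [Nat.succ_eq_add_one] at h2
      simp only [hσ]
      linarith
    rw [sum_add_distrib, sum_range_sub (fun k => max 0 (c k - (S - 2)))] at h1
    have e1 : max 0 (c p - (S - 2)) = 2 := by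
      rw [← hSdef, max_eq_right (by linarith)]; ring
    have e2 : 0 ≤ max 0 (c 0 - (S - 2)) := le_max_left _ _
    have e3 : ∑ k ∈ range p, a k = S := rfl
    linarith
  set D : ℂ := ∑ k ∈ range p, ((w k : ℂ) * g k - (σ k : ℂ)) with hD
  have hgsum : ∀ m ≤ p, ‖∑ k ∈ range m, (w k : ℂ) * g k‖ ≤ 2 * B := by
    intro m hm
    calc ‖∑ k ∈ range m, (w k : ℂ) * g k‖ ≤ ∑ k ∈ range m, ‖(w k : ℂ) * g k‖ := norm_sum_le _ _
      _ ≤ ∑ k ∈ range m, B * (|w k| * a k) := by
          refine sum_le_sum fun k _ => ?_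
          rw [norm_mul, Complex.norm_real, Real.norm_eq_abs]
          have := mul_le_mul_of_nonneg_left (hg k) (abs_nonneg (w k))
          calc |w k| * ‖g k‖ ≤ |w k| * (B * a k) := this
            _ = B * (|w k| * a k) := by ring
      _ = B * ∑ k ∈ range m, |w k| * a k := by rw [mul_sum]
      _ ≤ B * ∑ k ∈ range p, |w k| * a k := by
          refine mul_le_mul_of_nonneg_left ?_ hB
          exact sum_le_sum_of_subset_of_nonneg (range_mono hm)
            fun k _ _ => mul_nonneg (abs_nonneg _) (ha0 k)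
      _ ≤ B * 2 := mul_le_mul_of_nonneg_left htv hB
      _ = 2 * B := by ring
  set Qs : ℝ := ∑ k ∈ range p, σ k with hQs
  have hQ4 : 2 * B + 4 ≤ Qs := by
    have : (2 * B + 6 : ℝ) ≤ S := hp
    linarith
  have hDlow : Qs - 2 * B ≤ ‖D‖ := by
    have h1 : D = (∑ k ∈ range p, (w k : ℂ) * g k) - (Qs : ℂ) := by
      rw [hD, sum_sub_distrib, hQs]
      push_cast
      rfl
    rw [h1]
    have h2 := norm_sub_norm_le (Qs : ℂ) (∑ k ∈ range p, (w k : ℂ) * g k)
    rw [Complex.norm_real, Real.norm_of_nonneg (by linarith), norm_sub_rev] at h2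
    have := hgsum p le_rfl
    linarith
  have hDpos : 0 < ‖D‖ := by linarith
  have hDne : D ≠ 0 := norm_pos_iff.1 hDpos
  have hbsum : ∀ m ≤ p, ‖∑ k ∈ range m, b k‖ ≤ B * (2 * B + 7) := by
    intro m hm
    calc ‖∑ k ∈ range m, b k‖ ≤ ∑ k ∈ range m, ‖b k‖ := norm_sum_le _ _
      _ ≤ ∑ k ∈ range m, B * a k := sum_le_sum fun k _ => hb k
      _ = B * c m := by rw [← mul_sum]
      _ ≤ B * c p := mul_le_mul_of_nonneg_left (hcm hm) hB
      _ ≤ B * (2 * B + 7) := mul_le_mul_of_nonneg_left hp' hB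
  set θ : ℂ := -(∑ k ∈ range p, b k) / D with hθ
  have hθ1 : ‖θ‖ ≤ B * (2 * B + 7) / (Qs - 2 * B) := by
    rw [hθ, norm_div, norm_neg]
    exact div_le_div₀ (by positivity) (hbsum p le_rfl) (by linarith) hDlow
  have hK0 : 0 ≤ B * (2 * B + 7) := by positivity
  have hθ2 : ‖θ‖ * (Qs + 2 * B) ≤ B * (2 * B + 7) * (B + 1) := by
    have hpos : 0 < Qs - 2 * B := by linarith
    calc ‖θ‖ * (Qs + 2 * B) ≤ B * (2 * B + 7) / (Qs - 2 * B) * (Qs + 2 * B) :=
          mul_le_mul_of_nonneg_right hθ1 (by linarith)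
      _ = B * (2 * B + 7) * ((Qs + 2 * B) / (Qs - 2 * B)) := by ring
      _ ≤ B * (2 * B + 7) * (B + 1) := by
          refine mul_le_mul_of_nonneg_left ?_ hK0
          rw [div_le_iff₀ hpos]
          nlinarith
  have hθ3 : ‖θ‖ ≤ B * (2 * B + 7) * (B + 2) := by
    have h1 : ‖θ‖ * 1 ≤ ‖θ‖ * (Qs + 2 * B) :=
      mul_le_mul_of_nonneg_left (by linarith) (norm_nonneg _)
    calc ‖θ‖ = ‖θ‖ * 1 := (mul_one _).symm
      _ ≤ B * (2 * B + 7) * (B + 1) := h1.trans hθ2
      _ ≤ B * (2 * B + 7) * (B + 2) := mul_le_mul_of_nonneg_left (by linarith) hK0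
  refine ⟨fun k => θ * w k, ?_, ?_, ?_, ?_, ?_⟩
  · intro k
    rw [norm_mul, Complex.norm_real, Real.norm_eq_abs]
    have h1 : ‖θ‖ * 1 ≤ ‖θ‖ * (Qs + 2 * B) :=
      mul_le_mul_of_nonneg_left (by linarith) (norm_nonneg _)
    calc ‖θ‖ * |w k| ≤ ‖θ‖ * 1 := mul_le_mul_of_nonneg_left (hw1 k) (norm_nonneg _)
      _ ≤ B * (2 * B + 7) * (B + 1) := h1.trans hθ2
      _ ≤ B * (2 * B + 7) * (B + 2) := mul_le_mul_of_nonneg_left (by linarith) hK0
  · have h1 : ∀ k, θ * (w k : ℂ) * (a k : ℂ) = θ * ((w k * a k : ℝ) : ℂ) := by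
      intro k; push_cast; ring
    rw [sum_congr rfl fun k _ => h1 k, ← mul_sum, ← Complex.ofReal_sum, hsum p]
    have : c p = S := rfl
    rw [this, phi_self (by linarith)]
    simp
  · intro m hm
    have h1 : ∀ k, θ * (w k : ℂ) * (a k : ℂ) = θ * ((w k * a k : ℝ) : ℂ) := by
      intro k; push_cast; ring
    rw [sum_congr rfl fun k _ => h1 k, ← mul_sum, ← Complex.ofReal_sum, hsum m, norm_mul,
      Complex.norm_real]
    have h2 := phi_mem hS (hc0 m) (hcm hm)
    rw [Real.norm_of_nonneg h2.1]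
    calc ‖θ‖ * phi S (c m) ≤ ‖θ‖ * 1 := mul_le_mul_of_nonneg_left h2.2 (norm_nonneg _)
      _ = ‖θ‖ := mul_one _
      _ ≤ _ := hθ3
  all_goals
    have hin : ∀ k, ∑ i ∈ range (k + 1), θ * (w i : ℂ) * (a i : ℂ) = θ * (σ k : ℂ) := by
      intro k
      have h1 : ∀ k, θ * (w k : ℂ) * (a k : ℂ) = θ * ((w k * a k : ℝ) : ℂ) := by
        intro k; push_cast; ring
      rw [sum_congr rfl fun k _ => h1 k, ← mul_sum, ← Complex.ofReal_sum, hsum (k + 1)]
    have hU : ∀ m, ∑ k ∈ range m, (b k + θ * (w k : ℂ) * g k -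
        ∑ i ∈ range (k + 1), θ * (w i : ℂ) * (a i : ℂ)) =
        ∑ k ∈ range m, b k + θ * ∑ k ∈ range m, ((w k : ℂ) * g k - (σ k : ℂ)) := by
      intro m
      rw [mul_sum, ← sum_add_distrib]
      refine sum_congr rfl fun k _ => ?_
      rw [hin k]; ring
  · rw [hU p, ← hD, hθ, neg_div, neg_mul, div_mul_cancel₀ _ hDne, add_neg_cancel]
  · intro m hm
    rw [hU m]
    have h2 : ‖∑ k ∈ range m, ((w k : ℂ) * g k - (σ k : ℂ))‖ ≤ Qs + 2 * B := by
      rw [sum_sub_distrib]
      have h3 : ‖∑ k ∈ range m, (σ k : ℂ)‖ ≤ Qs := by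
        rw [← Complex.ofReal_sum, Complex.norm_real, Real.norm_of_nonneg
          (sum_nonneg fun k hk => hσ0 k ((mem_range.1 hk).trans_le hm))]
        exact sum_le_sum_of_subset_of_nonneg (range_mono hm)
          fun k hk _ => hσ0 k (mem_range.1 hk)
      have h4 := norm_sub_le (∑ k ∈ range m, (w k : ℂ) * g k) (∑ k ∈ range m, (σ k : ℂ))
      have h5 := hgsum m hm
      linarith
    calc ‖∑ k ∈ range m, b k + θ * ∑ k ∈ range m, ((w k : ℂ) * g k - (σ k : ℂ))‖
        ≤ ‖∑ k ∈ range m, b k‖ + ‖θ * ∑ k ∈ range m, ((w k : ℂ) * g k - (σ k : ℂ))‖ :=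
          norm_add_le _ _
      _ ≤ B * (2 * B + 7) + ‖θ‖ * (Qs + 2 * B) := by
          rw [norm_mul]
          exact add_le_add (hbsum m hm) (mul_le_mul_of_nonneg_left h2 (norm_nonneg _))
      _ ≤ B * (2 * B + 7) + B * (2 * B + 7) * (B + 1) := by linarith
      _ = B * (2 * B + 7) * (B + 2) := by ring

/-- the control lemma -/
theorem row_control {B : ℝ} (hB : 0 ≤ B) : ∀ (n : ℕ) (a : ℕ → ℝ) (b g : ℕ → ℂ),
    (∀ k, 0 ≤ a k) → (∀ k, a k ≤ 1) → (∀ k, ‖b k‖ ≤ B * a k) → (∀ k, ‖g k‖ ≤ B * a k) →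
    ∃ τ : ℕ → ℂ, (∀ k, ‖τ k‖ ≤ B * (2 * B + 7) * (B + 2)) ∧ ∑ k ∈ range n, τ k * a k = 0 ∧
      (∀ m ≤ n, ‖∑ k ∈ range m, (b k + τ k * g k - ∑ i ∈ range (k + 1), τ i * a i)‖
        ≤ B * (2 * B + 7) * (B + 2)) ∧
      ∀ m ≤ n, ‖∑ k ∈ range m, τ k * a k‖ ≤ B * (2 * B + 7) * (B + 2) := by
  intro n
  induction n using Nat.strong_induction_on with
  | _ n ih =>
  intro a b g ha0 ha1 hb hg
  have hK0 : 0 ≤ B * (2 * B + 7) := by positivity
  have hK1 : B * (2 * B + 7) ≤ B * (2 * B + 7) * (B + 2) := by nlinarith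
  by_cases hA : ∑ i ∈ range n, a i < 2 * B + 6
  · -- light sequence: no charges
    refine ⟨fun _ => 0, fun k => by simp; positivity, by simp, fun m hm => ?_, fun m hm => by
      simp; positivity⟩
    simp only [zero_mul, add_zero, sum_const_zero, sub_zero]
    calc ‖∑ k ∈ range m, b k‖ ≤ ∑ k ∈ range m, ‖b k‖ := norm_sum_le _ _
      _ ≤ ∑ k ∈ range m, B * a k := sum_le_sum fun k _ => hb k
      _ = B * ∑ k ∈ range m, a k := by rw [← mul_sum]
      _ ≤ B * ∑ k ∈ range n, a k := by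
          refine mul_le_mul_of_nonneg_left ?_ hB
          exact sum_le_sum_of_subset_of_nonneg (range_mono hm) fun k _ _ => ha0 k
      _ ≤ B * (2 * B + 7) := mul_le_mul_of_nonneg_left (by linarith) hB
      _ ≤ _ := hK1
  · push Not at hA
    -- the first group
    obtain ⟨p, hp, hpmin⟩ : ∃ p, 2 * B + 6 ≤ ∑ i ∈ range p, a i ∧
        ∀ q < p, ¬ 2 * B + 6 ≤ ∑ i ∈ range q, a i := by
      classical
      have hex : ∃ p, 2 * B + 6 ≤ ∑ i ∈ range p, a i := ⟨n, hA⟩
      exact ⟨Nat.find hex, Nat.find_spec hex, fun q hq => Nat.find_min hex hq⟩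
    have hpn : p ≤ n := by
      by_contra h
      exact hpmin n (not_le.1 h) hA
    have hp0 : 0 < p := by
      rcases Nat.eq_zero_or_pos p with h | h
      · rw [h] at hp
        simp at hp
        linarith
      · exact h
    have hp' : ∑ i ∈ range p, a i ≤ 2 * B + 7 := by
      have h1 := hpmin (p - 1) (by omega)
      push Not at h1
      have h2 : p = (p - 1) + 1 := by omega
      rw [h2, sum_range_succ]
      linarith [ha1 (p - 1)]
    obtain ⟨τ₁, h1a, h1b, h1e, h1c, h1d⟩ := ctrl_group hB ha0 ha1 hb hg hp hp'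
    obtain ⟨τ₂, h2a, h2b, h2c, h2e⟩ := ih (n - p) (by omega) (fun k => a (p + k)) (fun k => b (p + k))
      (fun k => g (p + k)) (fun k => ha0 _) (fun k => ha1 _) (fun k => hb _) (fun k => hg _)
    set τ : ℕ → ℂ := fun k => if k < p then τ₁ k else τ₂ (k - p) with hτ
    have hτ1 : ∀ k, k < p → τ k = τ₁ k := fun k hk => by simp only [hτ]; rw [if_pos hk]
    have hτ2 : ∀ k, τ (p + k) = τ₂ k := fun k => by
      simp only [hτ]; rw [if_neg (by omega)]; congr 1; omega
    have hs1 : ∀ k, k ≤ p → ∑ i ∈ range k, τ i * a i = ∑ i ∈ range k, τ₁ i * a i := by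
      intro k hk
      exact sum_congr rfl fun i hi => by rw [hτ1 i ((mem_range.1 hi).trans_le hk)]
    have hs2 : ∀ k, ∑ i ∈ range (p + k), τ i * a i = ∑ i ∈ range k, τ₂ i * a (p + i) := by
      intro k
      rw [sum_range_add, hs1 p le_rfl, h1b, zero_add]
      exact sum_congr rfl fun i _ => by rw [hτ2]
    have hU1 : ∀ m, m ≤ p → ∑ k ∈ range m, (b k + τ k * g k - ∑ i ∈ range (k + 1), τ i * a i) =
        ∑ k ∈ range m, (b k + τ₁ k * g k - ∑ i ∈ range (k + 1), τ₁ i * a i) := by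
      intro m hm
      refine sum_congr rfl fun k hk => ?_
      have hk' := mem_range.1 hk
      rw [hτ1 k (by omega), hs1 (k + 1) (by omega)]
    have hU2 : ∀ m, ∑ k ∈ range (p + m), (b k + τ k * g k - ∑ i ∈ range (k + 1), τ i * a i) =
        ∑ k ∈ range m, (b (p + k) + τ₂ k * g (p + k) -
          ∑ i ∈ range (k + 1), τ₂ i * a (p + i)) := by
      intro m
      rw [sum_range_add, hU1 p le_rfl, h1c, zero_add]
      refine sum_congr rfl fun k _ => ?_
      rw [hτ2, show p + k + 1 = p + (k + 1) by ring, hs2 (k + 1)]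
    refine ⟨τ, ?_, ?_, ?_, ?_⟩
    · intro k
      simp only [hτ]
      split_ifs with h
      · exact h1a k
      · exact h2a _
    · have h3 := hs2 (n - p)
      rw [Nat.add_sub_of_le hpn] at h3
      rw [h3]
      exact h2b
    · intro m hm
      rcases le_total m p with h | h
      · rw [hU1 m h]
        exact h1d m h
      · have h3 := hU2 (m - p)
        rw [Nat.add_sub_of_le h] at h3
        rw [h3]
        exact h2c (m - p) (by omega)
    · intro m hm
      rcases le_total m p with h | h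
      · rw [hs1 m h]
        exact h1e m h
      · have h3 := hs2 (m - p)
        rw [Nat.add_sub_of_le h] at h3
        rw [h3]
        exact h2e (m - p) (by omega)

end Pool.Agent.ST
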