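import Pool.Agent.Helper11.ST.Control

/-!
# ST: the control lemma in the normalisation of Helper53/ST/R2.lean
-/

set_option autoImplicit false

open Finset

namespace Pool.Agent.ST

theorem row_control2 : ∃ C : ℝ, 0 < C ∧ ∀ (s κ : ℝ), 0 < s → 0 ≤ κ → ∀ (n : ℕ) (α : ℕ → ℝ)
    (b e : ℕ → ℂ), (∀ k, 0 ≤ α k) → (∀ k, α k ≤ 3 * s) → (∀ k, ‖b k‖ ≤ 100 * s * α k) →
    (∀ k, ‖e k‖ ≤ κ * s * α k) →
    ∃ v : ℕ → ℂ, (∀ k, ‖v k‖ ≤ C * κ) ∧ (∀ k, n ≤ k → v k = 0) ∧
      ∑ k ∈ range n, v k * α k = 0 ∧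
      (∀ m ≤ n, ‖∑ k ∈ range m, v k * α k‖ ≤ C * κ * s) ∧
      (∀ m ≤ n, ‖∑ k ∈ range m, (e k - v k * b k + s * ∑ l ∈ range (k + 1), v l * α l)‖
        ≤ C * κ * s ^ 2) := by
  set K : ℝ := 100 * (2 * 100 + 7) * (100 + 2) with hK
  have hK0 : 0 < K := by rw [hK]; norm_num
  refine ⟨3 * K, by positivity, ?_⟩
  intro s κ hs hκ n α b e hα hα3 hb he
  have h3s : 0 < 3 * s := by positivity
  have hs0 : (s : ℂ) ≠ 0 := by exact_mod_cast hs.ne'
  obtain ⟨τ, h1, h2, h3, h4⟩ := row_control (show (0 : ℝ) ≤ 100 by norm_num) n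
    (fun k => α k / (3 * s)) (fun k => e k / (3 * κ * s ^ 2 : ℝ)) (fun k => b k / (3 * s ^ 2 : ℝ))
    (fun k => div_nonneg (hα k) h3s.le) (fun k => (div_le_one h3s).2 (hα3 k))
    (fun k => by
      rw [norm_div, Complex.norm_real, Real.norm_of_nonneg (by positivity)]
      rcases eq_or_lt_of_le hκ with h | h
      · rw [← h]
        simp only [mul_zero, zero_mul, div_zero]
        have := hα k
        positivity
      · rw [div_le_iff₀ (by positivity)]
        have h5 := he k
        have h6 : 100 * (α k / (3 * s)) * (3 * κ * s ^ 2) = 100 * (κ * s * α k) := by field_simp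
        rw [h6]
        have h7 : 0 ≤ κ * s * α k := by have := hα k; positivity
        linarith)
    (fun k => by
      rw [norm_div, Complex.norm_real, Real.norm_of_nonneg (by positivity),
        div_le_iff₀ (by positivity)]
      calc ‖b k‖ ≤ 100 * s * α k := hb k
        _ = 100 * (α k / (3 * s)) * (3 * s ^ 2) := by field_simp)
  -- the charges
  set v : ℕ → ℂ := fun k => if k < n then -(κ * τ k) else 0 with hv
  have hv1 : ∀ k, k < n → v k = -(κ * τ k) := fun k hk => by simp only [hv]; rw [if_pos hk]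
  have hsum : ∀ m ≤ n, ∑ k ∈ range m, v k * α k =
      -(κ * (3 * s : ℝ) : ℂ) * ∑ k ∈ range m, τ k * ((α k / (3 * s) : ℝ) : ℂ) := by
    intro m hm
    rw [mul_sum]
    refine sum_congr rfl fun k hk => ?_
    rw [hv1 k ((mem_range.1 hk).trans_le hm)]
    push_cast
    field_simp
  have hnorm : ‖-(κ * (3 * s : ℝ) : ℂ)‖ = κ * (3 * s) := by
    rw [norm_neg, norm_mul, Complex.norm_real, Complex.norm_real, Real.norm_of_nonneg hκ,
      Real.norm_of_nonneg h3s.le]
  refine ⟨v, ?_, ?_, ?_, ?_, ?_⟩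
  · intro k
    simp only [hv]
    split_ifs with h
    · rw [norm_neg, norm_mul, Complex.norm_real, Real.norm_of_nonneg hκ]
      calc κ * ‖τ k‖ ≤ κ * K := mul_le_mul_of_nonneg_left (h1 k) hκ
        _ ≤ 3 * K * κ := by nlinarith
    · rw [norm_zero]; positivity
  · intro k hk
    simp only [hv]
    rw [if_neg (by omega)]
  · rw [hsum n le_rfl, h2, mul_zero]
  · intro m hm
    rw [hsum m hm, norm_mul, hnorm]
    calc κ * (3 * s) * _ ≤ κ * (3 * s) * K := mul_le_mul_of_nonneg_left (h4 m hm) (by positivity)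
      _ = 3 * K * κ * s := by ring
  · intro m hm
    have h5 : ∑ k ∈ range m, (e k - v k * b k + s * ∑ l ∈ range (k + 1), v l * α l) =
        (3 * κ * s ^ 2 : ℝ) * ∑ k ∈ range m, (e k / (3 * κ * s ^ 2 : ℝ) +
          τ k * (b k / (3 * s ^ 2 : ℝ)) -
          ∑ i ∈ range (k + 1), τ i * ((α i / (3 * s) : ℝ) : ℂ)) := by
      rw [mul_sum]
      refine sum_congr rfl fun k hk => ?_
      have hk' := (mem_range.1 hk).trans_le hm
      rw [hsum (k + 1) (by omega), hv1 k hk']
      rcases eq_or_lt_of_le hκ with h | h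
      · have he0 : e k = 0 := by
          have := he k
          rw [← h] at this
          simpa using this
        rw [he0, ← h]
        simp
      · have hκ0 : (κ : ℂ) ≠ 0 := by exact_mod_cast h.ne'
        push_cast
        field_simp
        ring
    rw [h5, norm_mul, Complex.norm_real, Real.norm_of_nonneg (by positivity)]
    calc 3 * κ * s ^ 2 * _ ≤ 3 * κ * s ^ 2 * K :=
          mul_le_mul_of_nonneg_left (h3 m hm) (by positivity)
      _ = 3 * K * κ * s ^ 2 := by ring

end Pool.Agent.ST
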