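import Pool.Agent.Helper11.ST.Rows2
import Pool.Agent.Helper11.ST.Control
import Pool.Agent.Helper53.AC.L2b

/-!
# ST: the row lemma

Errors `e j` attached to the lattice cells, with first coefficient `0` and second coefficient at
most `K s λ α j`, can be corrected by multiples `t j * G j`, `|t j| ≤ C λ`, of given functions with
first coefficient `α j`, in such a way that the total is at most `C λ` everywhere. (Vitushkin's
grouping of second coefficients along rows, by a double summation by parts.)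
-/

set_option autoImplicit false

open Complex Filter Topology Metric MeasureTheory
open scoped ComplexConjugate

namespace Pool.Agent.ST

open Pool.Agent.SV

private theorem rj_succ (m r : ℤ) (k : ℕ) : rj m r (k + 1) = ((rj m r k).1 + 1, (rj m r k).2) := by
  simp only [rj]
  push_cast
  rw [add_assoc]

private theorem rj_inj {m r r' : ℤ} {k k' : ℕ} (h : rj m r k = rj m r' k') : r = r' ∧ k = k' := by
  simp only [rj, Prod.mk.injEq] at h
  exact ⟨h.2, by have := h.1; omega⟩

private theorem row_range (J : Finset (ℤ × ℤ)) : ∃ (m : ℤ) (n : ℕ), ∀ j ∈ J,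
    ∃ k < n, j = rj m j.2 k := by
  set A : ℕ := ∑ j ∈ J, j.1.natAbs with hA
  refine ⟨-A, 2 * A + 1, fun j hj => ?_⟩
  have h1 : j.1.natAbs ≤ A := Finset.single_le_sum (f := fun j : ℤ × ℤ => j.1.natAbs)
    (fun _ _ => Nat.zero_le _) hj
  refine ⟨(j.1 + A).toNat, by omega, ?_⟩
  simp only [rj]
  refine Prod.ext ?_ rfl
  simp only
  omega

private theorem sum_reindex (J : Finset (ℤ × ℤ)) (m : ℤ) (n : ℕ)
    (h : ∀ j ∈ J, ∃ k < n, j = rj m j.2 k) [DecidableEq (ℤ × ℤ)] (F : ℤ × ℤ → ℂ) :
    ∑ j ∈ J, F j = ∑ r ∈ J.image Prod.snd, ∑ k ∈ Finset.range n,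
      (if rj m r k ∈ J then F (rj m r k) else 0) := by
  classical
  have h1 : ∑ r ∈ J.image Prod.snd, ∑ k ∈ Finset.range n,
      (if rj m r k ∈ J then F (rj m r k) else 0) =
      ∑ p ∈ J.image Prod.snd ×ˢ Finset.range n,
        (if rj m p.1 p.2 ∈ J then F (rj m p.1 p.2) else 0) := by
    rw [Finset.sum_product]
  have h2 : ∑ p ∈ J.image Prod.snd ×ˢ Finset.range n,
        (if rj m p.1 p.2 ∈ J then F (rj m p.1 p.2) else 0) =
      ∑ j ∈ (J.image Prod.snd ×ˢ Finset.range n).image (fun p => rj m p.1 p.2),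
        (if j ∈ J then F j else 0) := by
    rw [Finset.sum_image]
    intro p _ q _ hpq
    have := rj_inj hpq
    exact Prod.ext this.1 this.2
  rw [h1, h2]
  have h3 : J ⊆ (J.image Prod.snd ×ˢ Finset.range n).image (fun p => rj m p.1 p.2) := by
    intro j hj
    obtain ⟨k, hk, hjk⟩ := h j hj
    rw [Finset.mem_image]
    refine ⟨(j.2, k), ?_, hjk.symm⟩
    rw [Finset.mem_product]
    exact ⟨Finset.mem_image_of_mem _ hj, Finset.mem_range.2 hk⟩
  rw [← Finset.sum_subset h3 (fun j _ hj => by rw [if_neg hj])]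
  exact Finset.sum_congr rfl fun j hj => by rw [if_pos hj]

private theorem wt_rows {C₀ s : ℝ} (hs : 0 < s)
    (hlat : ∀ s : ℝ, 0 < s → ∀ z : ℂ, ∀ J : Finset (ℤ × ℤ),
      ∑ j ∈ J, wt (2 * s) (z - lp s j) ≤ C₀) (m : ℤ) (n : ℕ) (Q : Finset ℤ) (z : ℂ) :
    ∑ r ∈ Q, ∑ k ∈ Finset.range n, wt (2 * s) (z - lp s (rj m r k)) ≤ C₀ := by
  classical
  have h1 : ∑ r ∈ Q, ∑ k ∈ Finset.range n, wt (2 * s) (z - lp s (rj m r k)) =
      ∑ j ∈ (Q ×ˢ Finset.range n).image (fun p => rj m p.1 p.2), wt (2 * s) (z - lp s j) := by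
    rw [Finset.sum_image, Finset.sum_product]
    intro p _ q _ hpq
    have := rj_inj hpq
    exact Prod.ext this.1 this.2
  rw [h1]
  exact hlat s hs z _

theorem row_sum {K : ℝ} (hK : 2 ≤ K) : ∃ C : ℝ, 0 < C ∧ ∀ (s lam : ℝ), 0 < s → 0 ≤ lam →
    ∀ (J : Finset (ℤ × ℤ)) (α : ℤ × ℤ → ℝ) (G e : ℤ × ℤ → ℂ → ℂ) (γ β : ℤ × ℤ → ℂ)
      (S : ℤ × ℤ → Set ℂ),
    (∀ j ∈ J, 0 ≤ α j ∧ α j ≤ K * s) →
    (∀ j ∈ J, DifferentiableOn ℂ (G j) {z | K * s < ‖z - lp s j‖}) →
    (∀ j ∈ J, ∀ z, ‖G j z‖ ≤ 1) →
    (∀ j ∈ J, Coef (G j) (lp s j) (α j) (γ j)) → (∀ j ∈ J, ‖γ j‖ ≤ K * s * α j) →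
    (∀ j ∈ J, {z | K * s < ‖z - lp s j‖} ⊆ S j) →
    (∀ j ∈ J, DifferentiableOn ℂ (e j) {z | K * s < ‖z - lp s j‖}) →
    (∀ j ∈ J, ∀ z ∈ S j, ‖e j z‖ ≤ lam) →
    (∀ j ∈ J, Coef (e j) (lp s j) 0 (β j)) → (∀ j ∈ J, ‖β j‖ ≤ K * s * lam * α j) →
    ∃ t : ℤ × ℤ → ℂ, (∀ j, ‖t j‖ ≤ C * lam) ∧ (∑ j ∈ J, t j * α j = 0) ∧
      ∀ z, (∀ j ∈ J, z ∈ S j) → ‖∑ j ∈ J, (e j z + t j * G j z)‖ ≤ C * lam := by
  classical
  obtain ⟨C₀, hC₀, hlat⟩ := lattice_sum
  obtain ⟨C₁, hC₁, hrow⟩ := sum_rows
  have hK0 : 0 < K := by linarith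
  set Kc : ℝ := K * (2 * K + 7) * (K + 2) with hKc
  have hKc0 : 0 < Kc := by positivity
  set Ce : ℝ := 1 + Kc + 3 * K * Kc + 6 * K ^ 2 + 6 * K ^ 2 * Kc with hCe
  have hCe0 : 0 < Ce := by positivity
  set Cf : ℝ := Ce * ((K + 1) / 2) ^ 3 * C₀ + K * Kc * (C₁ + 96 * C₀) with hCf
  have hCf0 : 0 < Cf := by positivity
  refine ⟨Kc + Cf, by positivity, ?_⟩
  intro s lam hs hlam J α G e γ β S hα hGd hGb hGc hγ hS hed heb hec hβ
  obtain ⟨m, n, hmn⟩ := row_range J
  have hKs : 0 < K * s := by positivity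
  -- the control problem of every row
  set a : ℤ → ℕ → ℝ := fun r k => if rj m r k ∈ J then α (rj m r k) / (K * s) else 0 with ha
  set b : ℤ → ℕ → ℂ := fun r k => if rj m r k ∈ J then β (rj m r k) / (lam * K * s * s : ℝ)
    else 0 with hb
  set g : ℤ → ℕ → ℂ := fun r k => if rj m r k ∈ J then γ (rj m r k) / (K * s * s : ℝ)
    else 0 with hg
  have hctl : ∀ r : ℤ, ∃ τ : ℕ → ℂ, (∀ k, ‖τ k‖ ≤ Kc) ∧
      ∑ k ∈ Finset.range n, τ k * a r k = 0 ∧
      ∀ q ≤ n, ‖∑ k ∈ Finset.range q, (b r k + τ k * g r k -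
        ∑ i ∈ Finset.range (k + 1), τ i * a r i)‖ ≤ Kc := by
    intro r
    suffices h : ∃ τ : ℕ → ℂ, (∀ k, ‖τ k‖ ≤ Kc) ∧
      ∑ k ∈ Finset.range n, τ k * a r k = 0 ∧
      (∀ q ≤ n, ‖∑ k ∈ Finset.range q, (b r k + τ k * g r k -
        ∑ i ∈ Finset.range (k + 1), τ i * a r i)‖ ≤ Kc) ∧
      ∀ q ≤ n, ‖∑ k ∈ Finset.range q, τ k * a r k‖ ≤ Kc by
      obtain ⟨τ, h1, h2, h3, -⟩ := h
      exact ⟨τ, h1, h2, h3⟩
    refine row_control hK0.le n (a r) (b r) (g r) ?_ ?_ ?_ ?_
    · intro k
      simp only [ha]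
      split_ifs with h
      · exact div_nonneg (hα _ h).1 hKs.le
      · exact le_rfl
    · intro k
      simp only [ha]
      split_ifs with h
      · rw [div_le_one hKs]
        exact (hα _ h).2
      · exact zero_le_one
    · intro k
      simp only [ha, hb]
      split_ifs with h
      · rw [norm_div, Complex.norm_real, Real.norm_of_nonneg (by positivity)]
        have h1 := hβ _ h
        have h2 : K * (α (rj m r k) / (K * s)) = α (rj m r k) / s := by field_simp
        rw [h2]
        rcases eq_or_lt_of_le hlam with h3 | h3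
        · rw [← h3]
          simp only [zero_mul, div_zero]
          exact div_nonneg (hα _ h).1 hs.le
        · rw [div_le_iff₀ (by positivity)]
          calc ‖β (rj m r k)‖ ≤ K * s * lam * α (rj m r k) := h1
            _ = α (rj m r k) / s * (lam * K * s * s) := by field_simp
      · simp
    · intro k
      simp only [ha, hg]
      split_ifs with h
      · rw [norm_div, Complex.norm_real, Real.norm_of_nonneg (by positivity)]
        have h1 := hγ _ h
        have h2 : K * (α (rj m r k) / (K * s)) = α (rj m r k) / s := by field_simp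
        rw [h2, div_le_iff₀ (by positivity)]
        calc ‖γ (rj m r k)‖ ≤ K * s * α (rj m r k) := h1
          _ = α (rj m r k) / s * (K * s * s) := by field_simp
      · simp
  choose τ hτ1 hτ2 hτ3 using hctl
  set t : ℤ × ℤ → ℂ := fun j => lam * τ j.2 (j.1 - m).toNat with ht
  have htr : ∀ r k, t (rj m r k) = lam * τ r k := by
    intro r k
    have : (m + (k : ℤ) - m).toNat = k := by omega
    simp only [ht, rj, this]
  have htb : ∀ j, ‖t j‖ ≤ Kc * lam := by
    intro j
    simp only [ht]
    rw [norm_mul, Complex.norm_real, Real.norm_of_nonneg hlam, mul_comm]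
    exact mul_le_mul_of_nonneg_right (hτ1 _ _) hlam
  refine ⟨t, fun j => (htb j).trans (mul_le_mul_of_nonneg_right (by linarith) hlam), ?_, ?_⟩
  · rw [sum_reindex J m n hmn]
    refine Finset.sum_eq_zero fun r _ => ?_
    have h1 : ∀ k ∈ Finset.range n, (if rj m r k ∈ J then t (rj m r k) * (α (rj m r k) : ℂ) else 0)
        = (lam * (K * s : ℝ) : ℂ) * (τ r k * a r k) := by
      intro k _
      simp only [ha]
      split_ifs with h
      · rw [htr]
        push_cast
        have : (K : ℂ) ≠ 0 := by exact_mod_cast hK0.ne'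
        have : (s : ℂ) ≠ 0 := by exact_mod_cast hs.ne'
        field_simp
      · simp
    rw [Finset.sum_congr rfl h1, ← Finset.mul_sum, hτ2, mul_zero]
  · intro z hz
    -- the main part
    set F : ℤ × ℤ → ℂ := fun j => t j * α j * nm s j z +
      (β j + t j * γ j) / s * (nm s (j.1 + 1, j.2) z - nm s j z) with hF
    -- the errors
    have herr : ∀ j ∈ J, ‖e j z + t j * G j z - F j‖ ≤
        Ce * lam * (((K + 1) / 2) ^ 3 * wt (2 * s) (z - lp s j)) := by
      intro j hj
      obtain ⟨k, hk, hjk⟩ := hmn j hj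
      have hα0 := (hα j hj).1
      have hα1 := (hα j hj).2
      set f : ℂ → ℂ := fun z => e j z + t j * G j z - (t j * α j * nm s j z +
        (β j + t j * γ j) / s * d1 s m j.2 k z) with hf
      have hnm := nm_AF hs j
      have hd1 := d1_AF hs m j.2 k
      rw [← hjk] at hd1
      have hco : Coef f (lp s j) 0 0 := by
        have h1 := ((hec j hj).add ((hGc j hj).const_mul (t j))).sub
          ((hnm.coef.const_mul (t j * α j)).add (hd1.coef.const_mul ((β j + t j * γ j) / s)))
        have hs0 : (s : ℂ) ≠ 0 := by exact_mod_cast hs.ne'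
        have e1 : (0 : ℂ) + t j * α j - (t j * α j * 1 + (β j + t j * γ j) / s * 0) = 0 := by ring
        have e2 : β j + t j * γ j - (t j * α j * 0 + (β j + t j * γ j) / s * s) = 0 := by
          field_simp
          ring
        rw [e1, e2] at h1
        exact h1
      have hsub : {w : ℂ | (K + 1) * s < ‖w - lp s j‖} ⊆ {w : ℂ | K * s < ‖w - lp s j‖} := by
        intro w hw
        have : (K + 1) * s < ‖w - lp s j‖ := hw
        change K * s < ‖w - lp s j‖
        nlinarith
      have hsub2 : ∀ q : ℝ, q ≤ 3 * s →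
          {w : ℂ | (K + 1) * s < ‖w - lp s j‖} ⊆ (closedBall (lp s j) q)ᶜ := by
        intro q hq w hw hw'
        rw [mem_closedBall, dist_eq_norm] at hw'
        have : (K + 1) * s < ‖w - lp s j‖ := hw
        nlinarith
      have hdf : DifferentiableOn ℂ f {w : ℂ | (K + 1) * s < ‖w - lp s j‖} := by
        refine (((hed j hj).mono hsub).add (((hGd j hj).mono hsub).const_mul _)).sub ?_
        exact ((hnm.holo.mono (hsub2 _ (by linarith))).const_mul _).add
          ((hd1.holo.mono (hsub2 _ le_rfl)).const_mul _)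
      have htj := htb j
      have hbd : ∀ w ∈ S j, ‖f w‖ ≤ Ce * lam := by
        intro w hw
        have g1 := heb j hj w hw
        have g2 : ‖t j * G j w‖ ≤ Kc * lam := by
          rw [norm_mul]
          calc ‖t j‖ * ‖G j w‖ ≤ (Kc * lam) * 1 :=
                mul_le_mul htj (hGb j hj w) (norm_nonneg _) (by positivity)
            _ = Kc * lam := mul_one _
        have g3 : ‖t j * α j * nm s j w‖ ≤ 3 * K * Kc * lam := by
          rw [norm_mul, norm_mul, Complex.norm_real, Real.norm_of_nonneg hα0]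
          calc ‖t j‖ * α j * ‖nm s j w‖ ≤ (Kc * lam) * (K * s) * (3 / s) := by
                have h1 := nm_le hs j w
                have h2 : ‖t j‖ * α j ≤ (Kc * lam) * (K * s) :=
                  mul_le_mul htj hα1 hα0 (by positivity)
                exact mul_le_mul h2 h1 (norm_nonneg _) (by positivity)
            _ = 3 * K * Kc * lam := by field_simp
        have g4 : ‖(β j + t j * γ j) / s * d1 s m j.2 k w‖ ≤ (6 * K ^ 2 + 6 * K ^ 2 * Kc) * lam := by
          rw [norm_mul, norm_div, Complex.norm_real, Real.norm_of_nonneg hs.le]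
          have h1 : ‖β j + t j * γ j‖ ≤ K * s * lam * (K * s) + (Kc * lam) * (K * s * (K * s)) := by
            refine (norm_add_le _ _).trans (add_le_add ?_ ?_)
            · exact (hβ j hj).trans (mul_le_mul_of_nonneg_left hα1 (by positivity))
            · rw [norm_mul]
              refine mul_le_mul htj ?_ (norm_nonneg _) (by positivity)
              exact (hγ j hj).trans (mul_le_mul_of_nonneg_left hα1 (by positivity))
          have h2 := d1_le hs m j.2 k w
          have h3 : ‖β j + t j * γ j‖ / s ≤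
              (K * s * lam * (K * s) + (Kc * lam) * (K * s * (K * s))) / s :=
            div_le_div_of_nonneg_right h1 hs.le
          calc ‖β j + t j * γ j‖ / s * ‖d1 s m j.2 k w‖
              ≤ (K * s * lam * (K * s) + (Kc * lam) * (K * s * (K * s))) / s * (6 / s) :=
                mul_le_mul h3 h2 (norm_nonneg _) (by positivity)
            _ = (6 * K ^ 2 + 6 * K ^ 2 * Kc) * lam := by field_simp
        calc ‖f w‖ ≤ ‖e j w + t j * G j w‖ + ‖t j * α j * nm s j w +
              (β j + t j * γ j) / s * d1 s m j.2 k w‖ := norm_sub_le _ _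
          _ ≤ (‖e j w‖ + ‖t j * G j w‖) + (‖t j * α j * nm s j w‖ +
              ‖(β j + t j * γ j) / s * d1 s m j.2 k w‖) :=
              add_le_add (norm_add_le _ _) (norm_add_le _ _)
          _ ≤ (lam + Kc * lam) + (3 * K * Kc * lam + (6 * K ^ 2 + 6 * K ^ 2 * Kc) * lam) :=
              add_le_add (add_le_add g1 g2) (add_le_add g3 g4)
          _ = Ce * lam := by rw [hCe]; ring
      have hfz := cube_wt (show 0 < (K + 1) * s by positivity)
        (show 0 ≤ Ce * lam by positivity) (hsub.trans (hS j hj)) hdf hbd hco z (hz j hj)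
      have hws := wt_scale (show 0 < 2 * s by linarith) (show 1 ≤ (K + 1) / 2 by linarith)
        (z - lp s j)
      have e3 : (K + 1) / 2 * (2 * s) = (K + 1) * s := by ring
      rw [e3] at hws
      have e4 : F j = t j * α j * nm s j z + (β j + t j * γ j) / s * d1 s m j.2 k z := by
        simp only [hF, d1]
        rw [rj_succ, ← hjk]
      rw [e4]
      exact hfz.trans (mul_le_mul_of_nonneg_left hws (by positivity))
    have hE : ‖∑ j ∈ J, (e j z + t j * G j z - F j)‖ ≤
        Ce * ((K + 1) / 2) ^ 3 * C₀ * lam := by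
      calc ‖∑ j ∈ J, (e j z + t j * G j z - F j)‖ ≤ ∑ j ∈ J, ‖e j z + t j * G j z - F j‖ :=
            norm_sum_le _ _
        _ ≤ ∑ j ∈ J, Ce * lam * (((K + 1) / 2) ^ 3 * wt (2 * s) (z - lp s j)) :=
            Finset.sum_le_sum herr
        _ = Ce * lam * ((K + 1) / 2) ^ 3 * ∑ j ∈ J, wt (2 * s) (z - lp s j) := by
            rw [Finset.mul_sum]
            exact Finset.sum_congr rfl fun j _ => by ring
        _ ≤ Ce * lam * ((K + 1) / 2) ^ 3 * C₀ :=
            mul_le_mul_of_nonneg_left (hlat s hs z J) (by positivity)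
        _ = Ce * ((K + 1) / 2) ^ 3 * C₀ * lam := by ring
    -- the main part by rows
    have hmain : ‖∑ j ∈ J, F j‖ ≤ K * Kc * (C₁ + 96 * C₀) * lam := by
      rw [sum_reindex J m n hmn]
      have hrw : ∀ r : ℤ, ‖∑ k ∈ Finset.range n, (if rj m r k ∈ J then F (rj m r k) else 0)‖ ≤
          lam * (K * s) * Kc * (‖d1 s m r n z‖ +
            ∑ k ∈ Finset.range n, 96 / s * wt (2 * s) (z - lp s (rj m r k))) := by
        intro r
        have hs0 : (s : ℂ) ≠ 0 := by exact_mod_cast hs.ne'
        have hK0' : (K : ℂ) ≠ 0 := by exact_mod_cast hK0.ne'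
        have h1 : ∀ k ∈ Finset.range n, (if rj m r k ∈ J then F (rj m r k) else 0) =
            (lam * τ r k) * ((K * s : ℝ) * (a r k : ℂ)) * nm s (rj m r k) z +
            (lam * (K * s : ℝ) : ℂ) * (b r k + τ r k * g r k) *
              (nm s (rj m r (k + 1)) z - nm s (rj m r k) z) := by
          intro k _
          simp only [ha, hb, hg]
          split_ifs with h
          · simp only [hF]
            rw [htr, ← rj_succ]
            rcases eq_or_lt_of_le hlam with h3 | h3
            · have hβ0 : β (rj m r k) = 0 := by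
                have := hβ _ h
                rw [← h3] at this
                simpa using this
              rw [hβ0, ← h3]
              simp
            · have hl0 : (lam : ℂ) ≠ 0 := by exact_mod_cast h3.ne'
              push_cast
              field_simp
          · simp
        rw [Finset.sum_congr rfl h1, abel2 (fun k => lam * τ r k)
          (fun k => (K * s : ℝ) * (a r k : ℂ))
          (fun k => (lam * (K * s : ℝ) : ℂ) * (b r k + τ r k * g r k))
          (fun k => nm s (rj m r k) z) n]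
        have h2 : ∑ i ∈ Finset.range n, (lam * τ r i) * ((K * s : ℝ) * (a r i : ℂ)) = 0 := by
          have : ∀ i ∈ Finset.range n, (lam * τ r i) * ((K * s : ℝ) * (a r i : ℂ)) =
              (lam * (K * s : ℝ) : ℂ) * (τ r i * a r i) := fun i _ => by ring
          rw [Finset.sum_congr rfl this, ← Finset.mul_sum, hτ2, mul_zero]
        have h3 : ∀ q, ∑ k ∈ Finset.range q, ((lam * (K * s : ℝ) : ℂ) * (b r k + τ r k * g r k) -
            ∑ i ∈ Finset.range (k + 1), (lam * τ r i) * ((K * s : ℝ) * (a r i : ℂ))) =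
            (lam * (K * s : ℝ) : ℂ) * ∑ k ∈ Finset.range q, (b r k + τ r k * g r k -
              ∑ i ∈ Finset.range (k + 1), τ r i * a r i) := by
          intro q
          rw [Finset.mul_sum]
          refine Finset.sum_congr rfl fun k _ => ?_
          rw [mul_sub, Finset.mul_sum]
          congr 1
          exact Finset.sum_congr rfl fun i _ => by ring
        have h4 : ∀ q ≤ n, ‖(lam * (K * s : ℝ) : ℂ) * ∑ k ∈ Finset.range q,
            (b r k + τ r k * g r k - ∑ i ∈ Finset.range (k + 1), τ r i * a r i)‖ ≤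
            lam * (K * s) * Kc := by
          intro q hq
          rw [norm_mul, norm_mul, Complex.norm_real, Complex.norm_real,
            Real.norm_of_nonneg hlam, Real.norm_of_nonneg hKs.le]
          exact mul_le_mul_of_nonneg_left (hτ3 r q hq) (by positivity)
        rw [h2, zero_mul, zero_add, h3 n]
        refine (norm_sub_le _ _).trans ?_
        rw [mul_add]
        refine add_le_add ?_ ?_
        · rw [norm_mul]
          exact mul_le_mul_of_nonneg_right (h4 n le_rfl) (norm_nonneg _)
        · refine (norm_sum_le _ _).trans ?_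
          rw [Finset.mul_sum]
          refine Finset.sum_le_sum fun k hk => ?_
          rw [h3 (k + 1), norm_mul]
          have h5 := d2_wt hs m r k z
          exact mul_le_mul (h4 (k + 1) (Finset.mem_range.1 hk)) h5 (norm_nonneg _) (by positivity)
      have h6 := hrow s hs m n (J.image Prod.snd) z
      have h7 := wt_rows hs hlat m n (J.image Prod.snd) z
      calc ‖∑ r ∈ J.image Prod.snd, ∑ k ∈ Finset.range n,
            (if rj m r k ∈ J then F (rj m r k) else 0)‖
          ≤ ∑ r ∈ J.image Prod.snd, ‖∑ k ∈ Finset.range n,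
            (if rj m r k ∈ J then F (rj m r k) else 0)‖ := norm_sum_le _ _
        _ ≤ ∑ r ∈ J.image Prod.snd, lam * (K * s) * Kc * (‖d1 s m r n z‖ +
            ∑ k ∈ Finset.range n, 96 / s * wt (2 * s) (z - lp s (rj m r k))) :=
            Finset.sum_le_sum fun r _ => hrw r
        _ = lam * (K * s) * Kc * (∑ r ∈ J.image Prod.snd, ‖d1 s m r n z‖ +
            96 / s * ∑ r ∈ J.image Prod.snd, ∑ k ∈ Finset.range n,
              wt (2 * s) (z - lp s (rj m r k))) := by
            rw [← Finset.mul_sum, Finset.sum_add_distrib, Finset.mul_sum]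
            simp only [Finset.mul_sum]
        _ ≤ lam * (K * s) * Kc * (C₁ / s + 96 / s * C₀) := by
            refine mul_le_mul_of_nonneg_left ?_ (by positivity)
            exact add_le_add h6 (mul_le_mul_of_nonneg_left h7 (by positivity))
        _ = K * Kc * (C₁ + 96 * C₀) * lam := by field_simp
    have hfin : ∑ j ∈ J, (e j z + t j * G j z) =
        ∑ j ∈ J, (e j z + t j * G j z - F j) + ∑ j ∈ J, F j := by
      rw [← Finset.sum_add_distrib]
      exact Finset.sum_congr rfl fun j _ => by ring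
    rw [hfin]
    calc _ ≤ ‖∑ j ∈ J, (e j z + t j * G j z - F j)‖ + ‖∑ j ∈ J, F j‖ := norm_add_le _ _
      _ ≤ Ce * ((K + 1) / 2) ^ 3 * C₀ * lam + K * Kc * (C₁ + 96 * C₀) * lam :=
          add_le_add hE hmain
      _ = Cf * lam := by rw [hCf]; ring
      _ ≤ (Kc + Cf) * lam := mul_le_mul_of_nonneg_right (by linarith) hlam

end Pool.Agent.ST
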