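import Pool.Agent.Helper53.AC.B1
import Pool.Agent.Helper53.AC.B2
import Pool.Agent.Helper53.AC.B3
import Pool.Agent.Helper53.AC.C1
import Pool.Agent.Helper53.AC.C3

/-!
# ST: model functions of the lattice cells and their differences along a row
-/

set_option autoImplicit false

open Complex Filter Topology Metric MeasureTheory
open scoped ComplexConjugate

namespace Pool.Agent.ST

open Pool.Agent.SV

/-- the model function of the cell `j` -/
noncomputable def nm (s : ℝ) (j : ℤ × ℤ) (z : ℂ) : ℂ :=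
  ∫ ζ, (blob (lp s j) (2 * s) ζ : ℂ) / (z - ζ)

/-- the cell number `k` of a row -/
def rj (m r : ℤ) (k : ℕ) : ℤ × ℤ := (m + k, r)

theorem lp_rj_succ (s : ℝ) (m r : ℤ) (k : ℕ) : lp s (rj m r (k + 1)) = lp s (rj m r k) + s := by
  apply Complex.ext
  · change s * ((m + ((k + 1 : ℕ) : ℤ) : ℤ) : ℝ) = s * ((m + (k : ℤ) : ℤ) : ℝ) + s
    push_cast
    ring
  · change s * (r : ℝ) = s * (r : ℝ) + 0
    ring

theorem dip_bound {g : ℂ → ℂ} (hg : Continuous g) (hs : HasCompactSupport g) {x : ℂ} {a b : ℝ}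
    (ha : 0 < a) (hsup : ∀ ζ, g ζ ≠ 0 → ‖ζ - x‖ ≤ a) (h0 : ∫ ζ, g ζ = 0)
    (hb : ∫ ζ, ‖g ζ‖ ≤ b) {z : ℂ} (hz : 2 * a ≤ ‖z - x‖) :
    ‖∫ ζ, g ζ / (z - ζ)‖ ≤ 2 * a * b / ‖z - x‖ ^ 2 := by
  have hρ : 0 < ‖z - x‖ := by linarith
  have hts : tsupport g ⊆ closedBall x a := by
    refine closure_minimal (fun ζ hζ => ?_) isClosed_closedBall
    rw [mem_closedBall, dist_eq_norm]
    exact hsup ζ hζ
  have hz' : z ∉ tsupport g := by
    intro h
    have := hts h
    rw [mem_closedBall, dist_eq_norm] at this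
    linarith
  have h1 := b2_shift hg hs x hz'
  rw [h0, zero_add] at h1
  have h2 : ‖∫ ζ, g ζ * (ζ - x) / (z - ζ)‖ ≤ 2 * a * b / ‖z - x‖ := by
    have hgi : Integrable (fun ζ => ‖g ζ‖) := (hg.integrable_of_hasCompactSupport hs).norm
    calc ‖∫ ζ, g ζ * (ζ - x) / (z - ζ)‖ ≤ ∫ ζ, (2 * a / ‖z - x‖) * ‖g ζ‖ := by
          refine norm_integral_le_of_norm_le (hgi.const_mul _) (Eventually.of_forall fun ζ => ?_)
          rw [norm_div, norm_mul]
          by_cases hζ : g ζ = 0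
          · rw [hζ, norm_zero]; simp
          · have h3 := hsup ζ hζ
            have h4 : ‖z - x‖ / 2 ≤ ‖z - ζ‖ := by
              have := norm_sub_norm_le (z - x) (ζ - x)
              rw [sub_sub_sub_cancel_right] at this
              linarith
            have h5 : 0 < ‖z - ζ‖ := by linarith
            rw [div_le_iff₀ h5]
            have h6 : ‖g ζ‖ * ‖ζ - x‖ ≤ ‖g ζ‖ * a :=
              mul_le_mul_of_nonneg_left h3 (norm_nonneg _)
            have h7 : 2 * a / ‖z - x‖ * ‖g ζ‖ * (‖z - x‖ / 2) ≤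
                2 * a / ‖z - x‖ * ‖g ζ‖ * ‖z - ζ‖ :=
              mul_le_mul_of_nonneg_left h4 (by positivity)
            have h8 : 2 * a / ‖z - x‖ * ‖g ζ‖ * (‖z - x‖ / 2) = ‖g ζ‖ * a := by
              field_simp
            linarith
      _ = (2 * a / ‖z - x‖) * ∫ ζ, ‖g ζ‖ := integral_const_mul _ _
      _ ≤ (2 * a / ‖z - x‖) * b := mul_le_mul_of_nonneg_left hb (by positivity)
      _ = 2 * a * b / ‖z - x‖ := by ring
  rw [← h1, norm_mul] at h2
  rw [le_div_iff₀ (by positivity)]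
  rw [le_div_iff₀ hρ] at h2
  calc ‖∫ ζ, g ζ / (z - ζ)‖ * ‖z - x‖ ^ 2 = ‖z - x‖ * ‖∫ ζ, g ζ / (z - ζ)‖ * ‖z - x‖ := by ring
    _ ≤ _ := h2

private theorem bl_cont (c : ℂ) (t : ℝ) : Continuous (fun ζ => (blob c t ζ : ℂ)) :=
  continuous_ofReal.comp (blob_cont c t)

private theorem bl_supp (c : ℂ) {t : ℝ} (ht : 0 < t) :
    HasCompactSupport (fun ζ => (blob c t ζ : ℂ)) :=
  (blob_compact c ht).comp_left Complex.ofReal_zero

private theorem bl_tsupp (c : ℂ) {t : ℝ} (ht : 0 < t) :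
    tsupport (fun ζ => (blob c t ζ : ℂ)) ⊆ closedBall c t := by
  refine closure_minimal (fun ζ hζ => ?_) isClosed_closedBall
  rw [mem_closedBall, dist_eq_norm]
  have : blob c t ζ ≠ 0 := by
    intro h
    apply hζ
    simp [h]
  exact (blob_supp c ht this).le

theorem nm_AF {s : ℝ} (hs : 0 < s) (j : ℤ × ℤ) :
    AF (closedBall (lp s j) (2 * s)) (lp s j) (nm s j) 1 0 := by
  have h2 : 0 < 2 * s := by linarith
  have h := pot_AF (bl_cont (lp s j) (2 * s)) (bl_supp (lp s j) h2) (lp s j)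
  have e1 : ∫ ζ, (blob (lp s j) (2 * s) ζ : ℂ) = 1 := by
    rw [integral_complex_ofReal, blob_int _ h2, ofReal_one]
  rw [e1, blob_first _ h2] at h
  exact h.mono (bl_tsupp _ h2)

theorem nm_le {s : ℝ} (hs : 0 < s) (j : ℤ × ℤ) (z : ℂ) : ‖nm s j z‖ ≤ 3 / s := by
  have h2 : 0 < 2 * s := by linarith
  have h := blob_pot (lp s j) h2 z
  calc ‖nm s j z‖ ≤ 6 / (2 * s) := h
    _ = 3 / s := by field_simp; norm_num

/-- first difference -/
noncomputable def d1 (s : ℝ) (m r : ℤ) (k : ℕ) (z : ℂ) : ℂ :=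
  nm s (rj m r (k + 1)) z - nm s (rj m r k) z

/-- second difference -/
noncomputable def d2 (s : ℝ) (m r : ℤ) (k : ℕ) (z : ℂ) : ℂ :=
  nm s (rj m r (k + 2)) z - 2 * nm s (rj m r (k + 1)) z + nm s (rj m r k) z

private theorem ball_sub (s : ℝ) (m r : ℤ) (k i : ℕ) (hs : 0 < s) :
    closedBall (lp s (rj m r (k + i))) (2 * s) ⊆ closedBall (lp s (rj m r k)) ((2 + i) * s) := by
  intro z hz
  rw [mem_closedBall, dist_eq_norm] at hz ⊢
  have h1 : lp s (rj m r (k + i)) = lp s (rj m r k) + (i * s : ℝ) := by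
    apply Complex.ext
    · change s * ((m + ((k + i : ℕ) : ℤ) : ℤ) : ℝ) = s * ((m + (k : ℤ) : ℤ) : ℝ) + i * s
      push_cast
      ring
    · change s * (r : ℝ) = s * (r : ℝ) + 0
      ring
  rw [h1] at hz
  have h2 : z - lp s (rj m r k) = (z - (lp s (rj m r k) + (i * s : ℝ))) + (i * s : ℝ) := by ring
  rw [h2]
  refine (norm_add_le _ _).trans ?_
  rw [Complex.norm_real, Real.norm_of_nonneg (by positivity)]
  linarith

theorem d1_AF {s : ℝ} (hs : 0 < s) (m r : ℤ) (k : ℕ) :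
    AF (closedBall (lp s (rj m r k)) (3 * s)) (lp s (rj m r k)) (d1 s m r k) 0 s := by
  have h0 := (nm_AF hs (rj m r k)).mono
    (closedBall_subset_closedBall (show 2 * s ≤ 3 * s by linarith))
  have h1 := ((nm_AF hs (rj m r (k + 1))).mono (ball_sub s m r k 1 hs)).recenter
    (lp s (rj m r k))
  have e : ((2 + (1 : ℕ)) * s : ℝ) = 3 * s := by push_cast; ring
  rw [e] at h1
  have h2 := h1.sub h0
  have e1 : (1 : ℂ) - 1 = 0 := by ring
  have e2 : (0 : ℂ) + (lp s (rj m r (k + 1)) - lp s (rj m r k)) * 1 - 0 = s := by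
    rw [lp_rj_succ]; ring
  rw [e1, e2] at h2
  exact h2

theorem d1_le {s : ℝ} (hs : 0 < s) (m r : ℤ) (k : ℕ) (z : ℂ) : ‖d1 s m r k z‖ ≤ 6 / s := by
  have h1 := nm_le hs (rj m r (k + 1)) z
  have h2 := nm_le hs (rj m r k) z
  calc ‖d1 s m r k z‖ ≤ ‖nm s (rj m r (k + 1)) z‖ + ‖nm s (rj m r k) z‖ := norm_sub_le _ _
    _ ≤ 3 / s + 3 / s := add_le_add h1 h2
    _ = 6 / s := by ring

theorem d1_far {s : ℝ} (hs : 0 < s) (m r : ℤ) (k : ℕ) {z : ℂ}
    (hz : 6 * s ≤ ‖z - lp s (rj m r k)‖) :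
    ‖d1 s m r k z‖ ≤ 12 * s / ‖z - lp s (rj m r k)‖ ^ 2 := by
  have h2 : 0 < 2 * s := by linarith
  set c₀ := lp s (rj m r k) with hc₀
  set c₁ := lp s (rj m r (k + 1)) with hc₁
  have hc : c₁ = c₀ + s := lp_rj_succ s m r k
  set g : ℂ → ℂ := fun ζ => (blob c₁ (2 * s) ζ : ℂ) - (blob c₀ (2 * s) ζ : ℂ) with hg
  have hgc : Continuous g := (bl_cont _ _).sub (bl_cont _ _)
  have hgs : HasCompactSupport g := (bl_supp _ h2).sub (bl_supp _ h2)
  have hi : ∀ c : ℂ, Integrable (fun ζ => (blob c (2 * s) ζ : ℂ)) := fun c =>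
    (bl_cont _ _).integrable_of_hasCompactSupport (bl_supp _ h2)
  have h3 : d1 s m r k z = ∫ ζ, g ζ / (z - ζ) := by
    unfold d1 nm
    rw [← integral_sub (b2_integrable (bl_cont _ _) (bl_supp _ h2) z)
      (b2_integrable (bl_cont _ _) (bl_supp _ h2) z)]
    refine integral_congr_ae (Eventually.of_forall fun ζ => ?_)
    simp only [hg]
    rw [sub_div]
  have h4 : ∫ ζ, g ζ = 0 := by
    simp only [hg]
    rw [integral_sub (hi _) (hi _), integral_complex_ofReal, integral_complex_ofReal,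
      blob_int _ h2, blob_int _ h2, sub_self]
  have h5 : ∫ ζ, ‖g ζ‖ ≤ 2 := by
    have e1 : ∀ c : ℂ, ∫ ζ, ‖(blob c (2 * s) ζ : ℂ)‖ = 1 := by
      intro c
      rw [← blob_int c h2]
      refine integral_congr_ae (Eventually.of_forall fun ζ => ?_)
      simp only [Complex.norm_real]
      exact Real.norm_of_nonneg (blob_nonneg _ _ _)
    calc ∫ ζ, ‖g ζ‖ ≤ ∫ ζ, (‖(blob c₁ (2 * s) ζ : ℂ)‖ + ‖(blob c₀ (2 * s) ζ : ℂ)‖) :=
          integral_mono (hgc.integrable_of_hasCompactSupport hgs).norm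
            ((hi _).norm.add (hi _).norm) fun ζ => norm_sub_le _ _
      _ = 2 := by rw [integral_add (hi _).norm (hi _).norm, e1, e1]; norm_num
  have h6 : ∀ ζ, g ζ ≠ 0 → ‖ζ - c₀‖ ≤ 3 * s := by
    intro ζ hζ
    have h7 : blob c₁ (2 * s) ζ ≠ 0 ∨ blob c₀ (2 * s) ζ ≠ 0 := by
      by_contra hcon
      push Not at hcon
      apply hζ
      simp only [hg, hcon.1, hcon.2]
      simp
    rcases h7 with h7 | h7
    · have h8 := blob_supp c₁ h2 h7
      have h9 : ζ - c₀ = (ζ - c₁) + s := by rw [hc]; ring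
      rw [h9]
      refine (norm_add_le _ _).trans ?_
      rw [Complex.norm_real, Real.norm_of_nonneg hs.le]
      linarith
    · have h8 := blob_supp c₀ h2 h7
      linarith
  rw [h3]
  have h7 := dip_bound hgc hgs (show 0 < 3 * s by linarith) h6 h4 h5 (z := z)
    (by linarith)
  calc _ ≤ 2 * (3 * s) * 2 / ‖z - c₀‖ ^ 2 := h7
    _ = 12 * s / ‖z - c₀‖ ^ 2 := by ring

theorem d2_wt {s : ℝ} (hs : 0 < s) (m r : ℤ) (k : ℕ) (z : ℂ) :
    ‖d2 s m r k z‖ ≤ 96 / s * wt (2 * s) (z - lp s (rj m r k)) := by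
  have h0 := (nm_AF hs (rj m r k)).mono
    (closedBall_subset_closedBall (show 2 * s ≤ 4 * s by linarith))
  have h1 := ((nm_AF hs (rj m r (k + 1))).mono (ball_sub s m r k 1 hs)).recenter
    (lp s (rj m r k))
  have h2 := ((nm_AF hs (rj m r (k + 2))).mono (ball_sub s m r k 2 hs)).recenter
    (lp s (rj m r k))
  have e1 : ((2 + (1 : ℕ)) * s : ℝ) = 3 * s := by push_cast; ring
  have e2 : ((2 + (2 : ℕ)) * s : ℝ) = 4 * s := by push_cast; ring
  rw [e1] at h1
  rw [e2] at h2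
  have h1' := h1.mono (closedBall_subset_closedBall (show 3 * s ≤ 4 * s by linarith))
  have h3 := (h2.sub (h1'.const_mul 2)).add h0
  have e3 : (1 : ℂ) - 2 * 1 + 1 = 0 := by ring
  have e4 : (0 : ℂ) + (lp s (rj m r (k + 2)) - lp s (rj m r k)) * 1 -
      2 * (0 + (lp s (rj m r (k + 1)) - lp s (rj m r k)) * 1) + 0 = 0 := by
    have e5 : lp s (rj m r (k + 2)) = lp s (rj m r (k + 1)) + s := lp_rj_succ s m r (k + 1)
    rw [e5, lp_rj_succ]; ring
  rw [e3, e4] at h3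
  have hb : ∀ w, ‖d2 s m r k w‖ ≤ 12 / s := by
    intro w
    have g0 := nm_le hs (rj m r k) w
    have g1 := nm_le hs (rj m r (k + 1)) w
    have g2 := nm_le hs (rj m r (k + 2)) w
    calc ‖d2 s m r k w‖ ≤ ‖nm s (rj m r (k + 2)) w - 2 * nm s (rj m r (k + 1)) w‖ +
          ‖nm s (rj m r k) w‖ := norm_add_le _ _
      _ ≤ (‖nm s (rj m r (k + 2)) w‖ + ‖2 * nm s (rj m r (k + 1)) w‖) +
          ‖nm s (rj m r k) w‖ := by
          have := norm_sub_le (nm s (rj m r (k + 2)) w) (2 * nm s (rj m r (k + 1)) w)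
          linarith
      _ ≤ (3 / s + 2 * (3 / s)) + 3 / s := by
          rw [norm_mul, Complex.norm_ofNat]
          linarith
      _ = 12 / s := by ring
  have hsub : {w : ℂ | 4 * s < ‖w - lp s (rj m r k)‖} ⊆ (closedBall (lp s (rj m r k)) (4 * s))ᶜ := by
    intro w hw hw'
    rw [mem_closedBall, dist_eq_norm] at hw'
    have : 4 * s < ‖w - lp s (rj m r k)‖ := hw
    linarith
  have h4 := cube_wt (show 0 < 4 * s by linarith) (show 0 ≤ 12 / s by positivity)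
    (Set.subset_univ _) (h3.holo.mono hsub) (fun w _ => hb w) h3.coef z (Set.mem_univ z)
  have h5 := wt_scale (show 0 < 2 * s by linarith) (show (1 : ℝ) ≤ 2 by norm_num)
    (z - lp s (rj m r k))
  have e6 : (2 : ℝ) * (2 * s) = 4 * s := by ring
  rw [e6] at h5
  calc ‖d2 s m r k z‖ ≤ 12 / s * wt (4 * s) (z - lp s (rj m r k)) := h4
    _ ≤ 12 / s * (2 ^ 3 * wt (2 * s) (z - lp s (rj m r k))) :=
        mul_le_mul_of_nonneg_left h5 (by positivity)
    _ = 96 / s * wt (2 * s) (z - lp s (rj m r k)) := by ring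

end Pool.Agent.ST
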