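import Pool.Agent.Helper11.ST.Rows1

/-!
# ST: sum of the end dipoles over the rows, double summation by parts
-/

set_option autoImplicit false

open Complex Filter Topology Metric MeasureTheory
open scoped ComplexConjugate

namespace Pool.Agent.ST

open Pool.Agent.SV

/-- double summation by parts -/
theorem abel2 (t A D N : ℕ → ℂ) (n : ℕ) :
    ∑ k ∈ Finset.range n, (t k * A k * N k + D k * (N (k + 1) - N k)) =
      (∑ i ∈ Finset.range n, t i * A i) * N n +
      (∑ k ∈ Finset.range n, (D k - ∑ i ∈ Finset.range (k + 1), t i * A i)) * (N (n + 1) - N n) -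
      ∑ k ∈ Finset.range n, (∑ l ∈ Finset.range (k + 1),
        (D l - ∑ i ∈ Finset.range (l + 1), t i * A i)) * (N (k + 2) - 2 * N (k + 1) + N k) := by
  induction n with
  | zero => simp
  | succ n ih =>
    rw [Finset.sum_range_succ, ih]
    set T : ℕ → ℂ := fun k => ∑ i ∈ Finset.range k, t i * A i with hT
    have hT1 : T (n + 1) = T n + t n * A n := Finset.sum_range_succ _ _
    set U : ℕ → ℂ := fun m => ∑ k ∈ Finset.range m, (D k - T (k + 1)) with hU
    have hU1 : U (n + 1) = U n + (D n - T (n + 1)) := Finset.sum_range_succ _ _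
    have e1 : ∑ k ∈ Finset.range (n + 1), U (k + 1) * (N (k + 2) - 2 * N (k + 1) + N k) =
        ∑ k ∈ Finset.range n, U (k + 1) * (N (k + 2) - 2 * N (k + 1) + N k) +
          U (n + 1) * (N (n + 2) - 2 * N (n + 1) + N n) := Finset.sum_range_succ _ _
    change T n * N n + U n * (N (n + 1) - N n) -
        ∑ k ∈ Finset.range n, U (k + 1) * (N (k + 2) - 2 * N (k + 1) + N k) +
        (t n * A n * N n + D n * (N (n + 1) - N n)) =
      T (n + 1) * N (n + 1) + U (n + 1) * (N (n + 1 + 1) - N (n + 1)) -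
        ∑ k ∈ Finset.range (n + 1), U (k + 1) * (N (k + 2) - 2 * N (k + 1) + N k)
    rw [e1, hU1, hT1]
    ring

theorem sum_rows : ∃ C : ℝ, 0 < C ∧ ∀ (s : ℝ), 0 < s → ∀ (m : ℤ) (k : ℕ) (Q : Finset ℤ) (z : ℂ),
    ∑ r ∈ Q, ‖d1 s m r k z‖ ≤ C / s := by
  classical
  have hsum : Summable (fun n : ℤ => 1 / (1 + |(n : ℝ)|) ^ 2) := by
    have h1 : Summable (fun n : ℕ => 1 / (1 + (n : ℝ)) ^ 2) := by
      have h2 := (summable_nat_add_iff (f := fun n : ℕ => 1 / (n : ℝ) ^ 2) 1).2
        (Real.summable_one_div_nat_pow.2 one_lt_two)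
      refine h2.congr fun n => ?_
      push_cast
      rw [add_comm]
    refine Summable.of_nat_of_neg ?_ ?_
    · refine h1.congr fun n => ?_
      simp
    · refine h1.congr fun n => ?_
      simp
  set S : ℝ := ∑' n : ℤ, 1 / (1 + |(n : ℝ)|) ^ 2 with hS
  have hnn : ∀ n : ℤ, 0 ≤ 1 / (1 + |(n : ℝ)|) ^ 2 := fun n => by positivity
  have hS0 : 0 ≤ S := tsum_nonneg hnn
  refine ⟨384 * S + 1, by positivity, ?_⟩
  intro s hs m k Q z
  set p : ℤ := ⌊z.im / s⌋ with hp
  have key : ∀ r : ℤ, ‖d1 s m r k z‖ ≤ 384 / s * (1 / (1 + |((r - p : ℤ) : ℝ)|) ^ 2) := by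
    intro r
    set u : ℝ := |z.im / s - r| with hu
    have hu0 : 0 ≤ u := abs_nonneg _
    have h1 : |((r - p : ℤ) : ℝ)| ≤ u + 1 := by
      have e1 : ((r - p : ℤ) : ℝ) = -(z.im / s - r) + (z.im / s - p) := by push_cast; ring
      have e2 : |z.im / s - p| ≤ 1 := by
        rw [abs_le]
        have := Int.floor_le (z.im / s)
        have := Int.lt_floor_add_one (z.im / s)
        constructor <;> linarith
      rw [e1]
      refine (abs_add_le _ _).trans ?_
      rw [abs_neg]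
      linarith
    have hpos : 0 < 1 + |((r - p : ℤ) : ℝ)| := by positivity
    have h2 : s * u ≤ ‖z - lp s (rj m r k)‖ := by
      have e1 := Complex.abs_im_le_norm (z - lp s (rj m r k))
      have e2 : (z - lp s (rj m r k)).im = z.im - s * r := rfl
      rw [e2] at e1
      have e3 : |z.im - s * r| = s * u := by
        rw [hu, ← abs_of_pos hs, ← abs_mul, abs_of_pos hs]
        congr 1
        field_simp
      rw [e3] at e1
      exact e1
    rcases lt_or_ge u 6 with h | h
    · have h3 := d1_le hs m r k z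
      have h4 : (1 + |((r - p : ℤ) : ℝ)|) ^ 2 ≤ 64 := by
        have : 1 + |((r - p : ℤ) : ℝ)| ≤ 8 := by linarith
        nlinarith
      have h5 : 1 / 64 ≤ 1 / (1 + |((r - p : ℤ) : ℝ)|) ^ 2 :=
        one_div_le_one_div_of_le (by positivity) h4
      calc ‖d1 s m r k z‖ ≤ 6 / s := h3
        _ = 384 / s * (1 / 64) := by ring
        _ ≤ _ := mul_le_mul_of_nonneg_left h5 (by positivity)
    · have hn : 6 * s ≤ ‖z - lp s (rj m r k)‖ := by nlinarith
      have h3 := d1_far hs m r k hn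
      have hup : 0 < s * u := by nlinarith
      have h4 : 12 * s / ‖z - lp s (rj m r k)‖ ^ 2 ≤ 12 * s / (s * u) ^ 2 := by
        refine div_le_div_of_nonneg_left (by positivity) (by positivity) ?_
        exact pow_le_pow_left₀ hup.le h2 2
      have h5 : 1 + |((r - p : ℤ) : ℝ)| ≤ 2 * u := by linarith
      have h6 : (1 + |((r - p : ℤ) : ℝ)|) ^ 2 ≤ (2 * u) ^ 2 := pow_le_pow_left₀ hpos.le h5 2
      have hu1 : 0 < u := by linarith
      have h7 : 1 / (2 * u) ^ 2 ≤ 1 / (1 + |((r - p : ℤ) : ℝ)|) ^ 2 :=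
        one_div_le_one_div_of_le (by positivity) h6
      calc ‖d1 s m r k z‖ ≤ 12 * s / (s * u) ^ 2 := h3.trans h4
        _ = 48 / s * (1 / (2 * u) ^ 2) := by field_simp; norm_num
        _ ≤ 384 / s * (1 / (2 * u) ^ 2) := by
            refine mul_le_mul_of_nonneg_right ?_ (by positivity)
            exact div_le_div_of_nonneg_right (by norm_num) hs.le
        _ ≤ _ := mul_le_mul_of_nonneg_left h7 (by positivity)
  have h1 : ∑ r ∈ Q, 1 / (1 + |((r - p : ℤ) : ℝ)|) ^ 2 ≤ S := by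
    have hinj : Set.InjOn (fun r : ℤ => r - p) (Q : Set ℤ) := fun a _ b _ h => by
      simpa using h
    have h2 : ∑ r ∈ Q, 1 / (1 + |((r - p : ℤ) : ℝ)|) ^ 2 =
        ∑ n ∈ Q.image (fun r : ℤ => r - p), 1 / (1 + |(n : ℝ)|) ^ 2 := by
      rw [Finset.sum_image hinj]
    rw [h2]
    exact hsum.sum_le_tsum _ fun n _ => hnn n
  calc ∑ r ∈ Q, ‖d1 s m r k z‖ ≤ ∑ r ∈ Q, 384 / s * (1 / (1 + |((r - p : ℤ) : ℝ)|) ^ 2) :=
        Finset.sum_le_sum fun r _ => key r
    _ = 384 / s * ∑ r ∈ Q, 1 / (1 + |((r - p : ℤ) : ℝ)|) ^ 2 := by rw [Finset.mul_sum]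
    _ ≤ 384 / s * S := mul_le_mul_of_nonneg_left h1 (by positivity)
    _ = 384 * S / s := by ring
    _ ≤ (384 * S + 1) / s := div_le_div_of_nonneg_right (by linarith) hs.le

end Pool.Agent.ST
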